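import Pool.Agent.Helper78.FL.AsmFinal
import Pool.Agent.Helper78.FL.M_Along
import Pool.Agent.Helper78.FL.M_Cartan
import Pool.Agent.Helper78.FL.M_ClosedOrb
import Pool.Agent.Helper78.FL.M_Cpt
import Pool.Agent.Helper78.FL.M_Deform
import Pool.Agent.Helper78.FL.M_Div
import Pool.Agent.Helper78.FL.M_E12
import Pool.Agent.Helper78.FL.M_ExpPoly
import Pool.Agent.Helper78.FL.M_Haar
import Pool.Agent.Helper78.FL.M_Inv
import Pool.Agent.Helper78.FL.M_KMin
import Pool.Agent.Helper78.FL.M_Lim
import Pool.Agent.Helper78.FL.M_Log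
import Pool.Agent.Helper78.FL.M_MinA
import Pool.Agent.Helper78.FL.M_MinUniq
import Pool.Agent.Helper78.FL.M_Phase
import Pool.Agent.Helper78.FL.M_Polar
import Pool.Agent.Helper78.FL.M_RealForm
import Pool.Agent.Helper78.FL.M_Reg
import Pool.Agent.Helper78.FL.M_SelfAdj
import Pool.Agent.Helper78.FL.M_Sep
import Pool.Agent.Helper78.FL.M_Stage1
import Pool.Agent.Helper78.FL.M_Stage2
import Pool.Agent.Helper78.FL.M_ULog
import Pool.Agent.Helper78.FL.M_UTrick
import Pool.Agent.Helper78.FL.M_Vol
import Pool.Agent.Helper78.FL.M_Weights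

/-!
# Every generalized torus knot group is flawed

Let `Γ = ⟨a_1, …, a_r | a_i ^ n_i = a_j ^ n_j⟩`.  For every reductive group `G ≤ GL_n(ℂ)` and every
maximal compact subgroup `K` of `G` the natural map `Hom(Γ, K) / K → X_Γ(G)` is a strong
deformation retraction.
-/

set_option autoImplicit false

namespace Pool.Agent.Results.MP_1b2618_al.Flawed

open _root_.Flawed

/-- **Main theorem.** Every generalized torus knot group is flawed. -/
theorem result (r : ℕ) (N : Fin r → ℕ) (hr : 1 ≤ r) (hN : ∀ i, 1 ≤ N i) :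
    IsFlawed (torusGens N) := by
  have hE1 : StE1 := e1 expPoly vand
  have hE2 : StE2 := e2 expPoly vand
  have hPol : StPolar := polar log hE1
  have hAl : StAlong := along weights
  have hMO : StMinOrb := minOrb hPol hAl
  have hPh : StPhase := phase hE2 ulog (phaseHerm weights) cpt
  have hSep : StSep := sep hPh vol div cpt
  have hInv : StInv := inv reg poly
  have hMA : StMinA := minA (minUniq log hE1) cpt
  exact flawed_of (lim hSep hInv haar cpt hMO)
    (closedOrb hPol hMO hAl (convex weights) cpt)
    (deform (stage1 hMO log hE1) (stage2 hMA log hE1)) kMin cpt (uTrick haar) selfAdj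
    (realForm reg haar) (cartan hMA haar log hE1) N hr hN

end Pool.Agent.Results.MP_1b2618_al.Flawed
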